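import Pool.Agent.Lib.MP_55bc5f_an.Full.SpecMfd

set_option autoImplicit false

open scoped Manifold ContDiff Topology ComplexConjugate
open Set Filter Metric MeasureTheory

namespace Pool.Agent.Lib.MP_55bc5f_an

/-- Invariance under homeomorphisms. -/
lemma MerId_transport {V : Type} [NormedAddCommGroup V] [NormedSpace ℂ V] {E : Type}
    [NormedAddCommGroup E] [NormedSpace ℂ E] {Y : CMan E} {R R' : Type} [TopologicalSpace R]
    [TopologicalSpace R'] {p : R → V} {p' : R' → V} (h : R ≃ₜ R') (hp : ∀ x, p' (h x) = p x)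
    {G : Set (R × Y)} {G' : Set (R' × Y)} (hG : ∀ x y, (h x, y) ∈ G' ↔ (x, y) ∈ G)
    (hm : IsMeromorphic p Y G) : IsMeromorphic p' Y G' := by
  have hp' : ∀ x, p (h.symm x) = p' x := fun x => by rw [← hp, h.apply_symm_apply]
  have hG' : ∀ x y, (x, y) ∈ G' ↔ (h.symm x, y) ∈ G := fun x y => by
    rw [← hG, h.apply_symm_apply]
  refine ⟨?_, ?_, ?_⟩
  · rintro ⟨x, y⟩
    obtain ⟨k, g, hg, hev⟩ := hm.analytic (h.symm x, y)
    refine ⟨k, g, ?_, ?_⟩
    · intro i
      have := hg i
      simp only [hp'] at this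
      exact this
    · have hc : ContinuousAt (fun w : R' × Y => (h.symm w.1, w.2)) (x, y) := by
        apply Continuous.continuousAt
        exact (h.symm.continuous.comp continuous_fst).prodMk continuous_snd
      filter_upwards [hc.eventually hev] with w hw
      rw [show w = (w.1, w.2) from rfl, hG', hw]
      simp only [hp']
  · intro K hK
    have h1 := hm.proper (h.symm '' K) (hK.image h.symm.continuous)
    have hc : Continuous (fun w : R × Y => (h w.1, w.2)) :=
      (h.continuous.comp continuous_fst).prodMk continuous_snd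
    have h2 := h1.image hc
    convert h2 using 1
    ext ⟨x, y⟩
    constructor
    · rintro ⟨h3, h4⟩
      exact ⟨(h.symm x, y), ⟨(hG' x y).1 h3, ⟨x, h4, rfl⟩⟩, by simp⟩
    · rintro ⟨⟨a, b⟩, ⟨h3, ⟨c, hc1, hc2⟩⟩, h5⟩
      simp only [Prod.mk.injEq] at h5 hc2
      obtain ⟨rfl, rfl⟩ := h5
      refine ⟨(hG a b).2 h3, ?_⟩
      change h a ∈ K
      rw [← hc2, h.apply_symm_apply]
      exact hc1
  · obtain ⟨A, g, hA, hcodim, hg, hGe⟩ := hm.generic
    refine ⟨h.symm ⁻¹' A, fun x => g (h.symm x), ?_, ?_, ?_, ?_⟩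
    · intro x
      obtain ⟨k, f, hf, hev⟩ := hA (h.symm x)
      refine ⟨k, fun i y => f i (h.symm y), ?_, ?_⟩
      · intro i
        obtain ⟨g', hg1, hg2⟩ := hf i
        rw [hp'] at hg1
        refine ⟨g', hg1, ?_⟩
        filter_upwards [h.symm.continuous.continuousAt.eventually hg2] with y hy
        simp only [Function.comp_apply] at hy ⊢
        rw [hy, hp']
      · exact h.symm.continuous.continuousAt.eventually hev
    · intro a ha
      obtain ⟨u, v, huv, hev⟩ := hcodim (h.symm a) ha
      refine ⟨u, v, huv, ?_⟩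
      filter_upwards [h.symm.continuous.continuousAt.eventually hev] with x hx hxA hst
      simp only [hp'] at hx
      exact h.symm.injective (hx hxA hst)
    · intro x hx
      obtain ⟨g', hg1, hg2⟩ := hg (h.symm x) hx
      rw [hp'] at hg1
      refine ⟨g', hg1, ?_⟩
      filter_upwards [h.symm.continuous.continuousAt.eventually hg2] with y hy
      simp only [Function.comp_apply] at hy ⊢
      rw [hy, hp']
    · let H : R × Y ≃ₜ R' × Y := h.prodCongr (Homeomorph.refl Y)
      have h1 : G' = H '' G := by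
        ext ⟨x, y⟩
        constructor
        · intro h2
          exact ⟨(h.symm x, y), (hG' x y).1 h2, by simp [H]⟩
        · rintro ⟨⟨a, b⟩, h3, h5⟩
          have h6 : (h a, b) = (x, y) := h5
          rw [← h6]
          exact (hG a b).2 h3
      rw [h1, hGe, H.image_closure]
      congr 1
      ext ⟨x, y⟩
      constructor
      · rintro ⟨⟨a, b⟩, ⟨h3, h4⟩, h5⟩
        have h6 : (h a, b) = (x, y) := h5
        rw [← h6]
        refine ⟨?_, ?_⟩
        · change h.symm (h a) ∉ A
          rw [h.symm_apply_apply]; exact h3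
        · change b = g (h.symm (h a))
          rw [h.symm_apply_apply]; exact h4
      · rintro ⟨h3, h4⟩
        refine ⟨(h.symm x, y), ⟨h3, h4⟩, ?_⟩
        change (h (h.symm x), y) = (x, y)
        rw [h.apply_symm_apply]

theorem s_MerId : S_MerId := by
  intro V _ _ _ E _ _ Y G hG
  have h1 := hG (OpenPartialHomeomorph.refl V) (by
    apply IsManifold.subset_maximalAtlas
    exact (mem_singleton_iff.2 rfl))
  exact MerId_transport (Homeomorph.Set.univ V) (fun x => rfl) (fun x y => Iff.rfl) h1

end Pool.Agent.Lib.MP_55bc5f_an
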