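import Pool.Agent.Lib.MP_55bc5f_an.Full.SpecMfd
import Pool.Agent.Lib.MP_55bc5f_an.Graph

set_option autoImplicit false

open scoped Manifold ContDiff Topology ComplexConjugate
open Set Filter Metric MeasureTheory

namespace Pool.Agent.Lib.MP_55bc5f_an

theorem s_MeroGraph : S_MeroGraph := by
  intro V _ _ E _ _ _ M Y f hf e he
  have h1 : IsMeromorphic (Subtype.val : e.target → V) Y
      {w : e.target × Y | w.2 = (fun x : e.target => f (e.symm x)) w.1} := by
    refine isMeromorphic_graph (p := (Subtype.val : e.target → V)) (Y := Y)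
      (g := fun x : e.target => f (e.symm x)) continuous_subtype_val ?_
    intro x
    refine ⟨fun v => f (e.symm v), ?_, EventuallyEq.refl _ _⟩
    filter_upwards [e.open_target.mem_nhds x.2] with v hv
    have h2 : MDifferentiableAt 𝓘(ℂ, V) 𝓘(ℂ, V) e.symm v :=
      ((contMDiffOn_symm_of_mem_maximalAtlas he).contMDiffAt
        (e.open_target.mem_nhds hv)).mdifferentiableAt (by simp)
    exact (hf (e.symm v)).comp v h2
  exact h1

end Pool.Agent.Lib.MP_55bc5f_an
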