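import Pool.Agent.Lib.MP_55bc5f_an.Full.SpecMfd

/-!
# Meromorphic maps to `X_0` are holomorphic
-/

set_option autoImplicit false

open scoped Manifold ContDiff Topology ComplexConjugate
open Set Filter Metric MeasureTheory

namespace Pool.Agent.Lib.MP_55bc5f_an

/-- The local statement. -/
lemma MeroHol_local {V : Type} [NormedAddCommGroup V] [NormedSpace ℂ V] [FiniteDimensional ℂ V]
    {R : Type} [TopologicalSpace R] {q : R → V} (hq' : IsRiemannDomain q)
    (G : Set (R × XX 0)) (hG : IsMeromorphic q (XX 0) G) :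
    ∃ g' : R → XX 0, (∀ y, HolMapAt q (XX 0) g' y) ∧ G = {w | w.2 = g' w.1} := by
  obtain ⟨A, g, hA, hcodim, hg, hGe⟩ := hG.generic
  have hq := hq'.localHomeo
  have hpi : PiOneOnto (id : R → R) := by
    refine ⟨continuous_id, fun x γ => ⟨γ, ?_⟩⟩
    exact Path.Homotopic.refl _
  obtain ⟨g'₀, hg'1, hg'2⟩ := positive hq' hq' (j := id) continuous_id (fun _ => rfl)
    (fun h hh => ⟨h, hh, fun _ => rfl⟩) hpi hA hcodim hg
  let g' : R → XX 0 := g'₀
  refine ⟨g', hg'1, ?_⟩
  have hc : Continuous g' := continuous_iff_continuousAt.2 fun y =>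
    (hg'1 y).continuousAt hq.continuous.continuousAt
  ext ⟨x, y⟩
  constructor
  · intro hy
    rw [hGe] at hy
    have hcl : IsClosed {w : R × XX 0 | w.2 = g' w.1} :=
      isClosed_eq continuous_snd (hc.comp continuous_fst)
    have hsub : {w : R × XX 0 | w.1 ∉ A ∧ w.2 = g w.1} ⊆ {w : R × XX 0 | w.2 = g' w.1} := by
      rintro ⟨a, b⟩ ⟨h1, h2⟩
      change b = g' a
      rw [show b = g a from h2]
      exact (hg'2 a h1).symm
    exact closure_minimal hsub hcl hy
  · intro hy
    have hy' : y = g' x := hy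
    rw [hGe, hy']
    have h1 : ContinuousAt (fun x => ((x, g' x) : R × XX 0)) x :=
      (continuous_id.prodMk hc).continuousAt
    have h2 := h1.continuousWithinAt (s := Aᶜ) |>.mem_closure_image (mem_closure_compl hq hcodim x)
    refine closure_mono ?_ h2
    rintro _ ⟨x', hx', rfl⟩
    exact ⟨hx', hg'2 x' hx'⟩

/-- Charts onto balls. -/
lemma MeroHol_chart {V : Type} [NormedAddCommGroup V] [NormedSpace ℂ V] (M : CMan V) (x : M) :
    ∃ e ∈ IsManifold.maximalAtlas 𝓘(ℂ, V) ω M, x ∈ e.source ∧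
      ∃ r : ℝ, 0 < r ∧ e.target = Metric.ball (e x) r := by
  set φ := chartAt V x with hφ
  obtain ⟨r, hr, hball⟩ := Metric.isOpen_iff.1 φ.open_target (φ x)
    (φ.map_source (mem_chart_source V x))
  set s : Set M := φ.source ∩ φ ⁻¹' Metric.ball (φ x) r with hs
  have hso : IsOpen s := φ.isOpen_inter_preimage Metric.isOpen_ball
  have hxs : x ∈ s := ⟨mem_chart_source V x, Metric.mem_ball_self hr⟩
  refine ⟨φ.restr s, ?_, ?_, r, hr, ?_⟩
  · exact restr_mem_maximalAtlas (contDiffGroupoid ω 𝓘(ℂ, V))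
      (IsManifold.chart_mem_maximalAtlas x) hso
  · rw [φ.restr_source, hso.interior_eq]
    exact ⟨mem_chart_source V x, hxs⟩
  · rw [φ.restr_target, hso.interior_eq]
    ext z
    constructor
    · rintro ⟨h1, h2⟩
      have h3 : φ (φ.symm z) ∈ Metric.ball (φ x) r := h2.2
      rw [φ.right_inv h1] at h3
      exact h3
    · intro hz
      have h1 : z ∈ φ.target := hball hz
      refine ⟨h1, φ.map_target h1, ?_⟩
      change φ (φ.symm z) ∈ Metric.ball (φ x) r
      rw [φ.right_inv h1]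
      exact hz

lemma MeroHol_domain {V : Type} [NormedAddCommGroup V] [NormedSpace ℂ V] {B : Set V}
    (c : V) {r : ℝ} (hr : 0 < r) (hB : B = Metric.ball c r) :
    IsRiemannDomain (Subtype.val : B → V) := by
  let _ : NormedSpace ℝ V := NormedSpace.restrictScalars ℝ ℂ V
  have hBo : IsOpen B := by rw [hB]; exact Metric.isOpen_ball
  refine ⟨?_, inferInstance, hBo.isOpenEmbedding_subtypeVal.isLocalHomeomorph⟩
  rw [← isConnected_iff_connectedSpace, hB]
  exact ⟨⟨c, Metric.mem_ball_self hr⟩, (convex_ball c r).isPreconnected⟩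

theorem s_MeroHol : S_MeroHol := by
  intro V _ _ _ M G hG
  choose e hemax hex r hr htar using MeroHol_chart M
  have hloc : ∀ x : M, ∃ g : (e x).target → XX 0,
      (∀ y, HolMapAt (Subtype.val : (e x).target → V) (XX 0) g y) ∧
      {w : (e x).target × XX 0 | ((e x).symm w.1, w.2) ∈ G} = {w | w.2 = g w.1} := fun x =>
    MeroHol_local (MeroHol_domain (e x x) (hr x) (htar x)) _ (hG (e x) (hemax x))
  choose g hg1 hg2 using hloc
  have hmem : ∀ (x y : M) (hy : y ∈ (e x).source) (z : XX 0),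
      (y, z) ∈ G ↔ z = g x ⟨e x y, (e x).map_source hy⟩ := by
    intro x y hy z
    have h1 := Set.ext_iff.1 (hg2 x) (⟨e x y, (e x).map_source hy⟩, z)
    have h2 : (e x).symm (e x y) = y := (e x).left_inv hy
    change ((e x).symm (e x y), z) ∈ G ↔ z = g x ⟨e x y, (e x).map_source hy⟩ at h1
    rwa [h2] at h1
  refine ⟨fun x => g x ⟨e x x, (e x).map_source (hex x)⟩, ?_, ?_⟩
  · intro x
    obtain ⟨k, hk1, hk2⟩ := hg1 x ⟨e x x, (e x).map_source (hex x)⟩
    have h1 : ∀ y ∈ (e x).source, ∀ hy : y ∈ (e x).source,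
        g y ⟨e y y, (e y).map_source (hex y)⟩ = g x ⟨e x y, (e x).map_source hy⟩ := by
      intro y _ hy
      have h2 := (hmem y y (hex y) _).2 rfl
      exact (hmem x y hy _).1 h2
    have hcont : ContinuousAt (e x) x := (e x).continuousAt (hex x)
    have hkd : MDifferentiableAt 𝓘(ℂ, V) 𝓘(ℂ, ℂ × ℂ × ℂ) k (e x x) := hk1.self_of_nhds
    have hed : MDifferentiableAt 𝓘(ℂ, V) 𝓘(ℂ, V) (e x) x :=
      (contMDiffAt_of_mem_maximalAtlas (hemax x) (hex x)).mdifferentiableAt (by simp)
    have h3 : MDifferentiableAt 𝓘(ℂ, V) 𝓘(ℂ, ℂ × ℂ × ℂ) (k ∘ e x) x := hkd.comp x hed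
    refine h3.congr_of_eventuallyEq ?_
    have h4 : ∀ᶠ v in 𝓝 (e x x), ∀ hv : v ∈ (e x).target, g x ⟨v, hv⟩ = k v := by
      have h5 := hk2
      rw [Filter.EventuallyEq, nhds_subtype_eq_comap, Filter.eventually_comap] at h5
      filter_upwards [h5] with v hv hvt
      exact hv ⟨v, hvt⟩ rfl
    filter_upwards [hcont.eventually h4, (e x).open_source.mem_nhds (hex x)] with y hy1 hy2
    rw [h1 y hy2 hy2]
    exact hy1 _
  · ext ⟨x, z⟩
    exact hmem x x (hex x) z

end Pool.Agent.Lib.MP_55bc5f_an
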