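import Pool.Agent.Lib.MP_55bc5f_an.Full.SpecMfd

/-!
# Extension of holomorphic maps to `X_0` for domains in Stein manifolds
-/

set_option autoImplicit false

open scoped Manifold ContDiff Topology ComplexConjugate
open Set Filter Metric MeasureTheory

namespace Pool.Agent.Lib.MP_55bc5f_an

/-- A connected manifold of dimension zero is a point. -/
lemma mfdPos_subsingleton {V : Type} [NormedAddCommGroup V] [NormedSpace ℂ V] [Subsingleton V]
    (R : CMan V) (h : ConnectedSpace R) : Subsingleton R := by
  have hopen : ∀ x : R, IsOpen ({x} : Set R) := by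
    intro x
    have h1 : ({x} : Set R) = (chartAt V x).source := by
      refine Subset.antisymm (by simp) ?_
      intro y hy
      exact (chartAt V x).injOn hy (mem_chart_source V x) (Subsingleton.elim _ _)
    rw [h1]
    exact (chartAt V x).open_source
  haveI : DiscreteTopology R := discreteTopology_iff_isOpen_singleton.2 hopen
  exact PreconnectedSpace.trivial_of_discrete

theorem s_MfdPos (hMainPos : S_MainPos) (hTrLM : S_TrLM) (hTrHol : S_TrHol) (hTrMap : S_TrMap) :
    S_MfdPos := by
  intro V _ _ _ D R j hD hj f hf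
  rcases Nat.eq_zero_or_pos (Module.finrank ℂ V) with hn | hn
  · haveI : Subsingleton V := Module.finrank_zero_iff.1 hn
    haveI := mfdPos_subsingleton R hj.connected
    obtain ⟨x₀⟩ : Nonempty D := hD.toNonempty
    refine ⟨fun _ => f x₀, mdifferentiable_const, fun x => ?_⟩
    have h1 : j x = j x₀ := Subsingleton.elim _ _
    rw [hj.emb.injective h1]
  · obtain ⟨N, ι, hι1, hι2, hιc⟩ := hj.stein
    have hImm : Imm R ι := ⟨hι1, hι2⟩
    let E : LM (Module.finrank ℂ V) N :=
      { carrier := R
        z := ι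
        cont := hι1.continuous
        et := hTrLM V R N ι hImm }
    have hImmD : Imm D (ι ∘ j) := by
      refine ⟨hι1.comp hj.hol, fun x => ?_⟩
      rw [mfderiv_comp x (hι1 (j x)) (hj.hol x)]
      exact (hι2 (j x)).comp (hj.imm x)
    obtain ⟨x₀⟩ : Nonempty D := hD.toNonempty
    have hExt : ExtU E (range j) := by
      intro h hh
      have h1 : MDifferentiable 𝓘(ℂ, V) 𝓘(ℂ, ℂ) (h ∘ j) := by
        intro x
        have h2 := (hTrHol V R N ι hImm ℂ h (j x)).1 (hh (j x) ⟨x, rfl⟩)
        exact MDifferentiableAt.comp x h2.self_of_nhds (hj.hol x)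
      obtain ⟨H, hH1, hH2⟩ := hj.extend (h ∘ j) h1
      refine ⟨H, fun x => (hTrHol V R N ι hImm ℂ H x).2 (Eventually.of_forall fun y => hH1 y), ?_⟩
      rintro _ ⟨x, rfl⟩
      exact hH2 x
    have hg : ∀ x ∈ range j, HolMapAt ι (XX 0) (Function.extend j f fun _ => f x₀) x := by
      rintro _ ⟨x, rfl⟩
      obtain ⟨k, hk1, hk2⟩ := (hTrMap V D N (ι ∘ j) hImmD _ (XX 0) f x).2
        (Eventually.of_forall fun y => hf y)
      refine ⟨k, hk1, ?_⟩
      have h1 : map j (𝓝 x) = 𝓝 (j x) := hj.emb.map_nhds_eq x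
      change ∀ᶠ y in 𝓝 (j x), _
      rw [← h1, eventually_map]
      filter_upwards [hk2] with y hy
      rw [hj.emb.injective.extend_apply]
      exact hy
    obtain ⟨f', hf1, hf2⟩ := hMainPos _ N hn E hιc hj.connected (range j) hj.emb.isOpen_range
      (isConnected_range hj.hol.continuous) hExt (Function.extend j f fun _ => f x₀) hg
    refine ⟨f', fun x => ((hTrMap V R N ι hImm _ (XX 0) f' x).1 (hf1 x)).self_of_nhds, fun x => ?_⟩
    rw [hf2 (j x) ⟨x, rfl⟩]
    exact hj.emb.injective.extend_apply _ _ _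

end Pool.Agent.Lib.MP_55bc5f_an
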