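import Pool.Agent.Lib.MP_55bc5f_an.Full.SpecMfd

/-!
# Injective linear maps have a nonvanishing maximal minor
-/

set_option autoImplicit false

open scoped Manifold ContDiff Topology ComplexConjugate
open Set Filter Metric MeasureTheory

namespace Pool.Agent.Lib.MP_55bc5f_an

lemma Minor_matrix {n N : ℕ} (A : Matrix (Fin N) (Fin n) ℂ) (hA : A.rank = n) :
    ∃ I : Fin n → Fin N, (A.submatrix I id).det ≠ 0 := by
  obtain ⟨κ, a, ha, hspan, hli⟩ := exists_linearIndependent' ℂ A.row
  have : Finite κ := Finite.of_injective a ha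
  have := Fintype.ofFinite κ
  have h1 : Fintype.card κ = n := by
    rw [linearIndependent_iff_card_eq_finrank_span] at hli
    rw [hli, Set.finrank, hspan, ← Matrix.rank_eq_finrank_span_row, hA]
  set e : Fin n ≃ κ := (Fintype.equivFinOfCardEq h1).symm with he
  refine ⟨a ∘ e, ?_⟩
  have h2 : LinearIndependent ℂ (A.submatrix (a ∘ e) id).row := by
    have h3 := hli.comp e e.injective
    exact h3
  rw [Matrix.linearIndependent_rows_iff_isUnit, Matrix.isUnit_iff_isUnit_det] at h2
  exact h2.ne_zero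

theorem s_Minor : S_Minor := by
  intro n N L hL
  set A : Matrix (Fin N) (Fin n) ℂ := LinearMap.toMatrix' (L : Cn n →ₗ[ℂ] Cn N) with hA
  have hrank : A.rank = n := by
    have h1 : A.mulVecLin = (L : Cn n →ₗ[ℂ] Cn N) := by
      rw [hA, ← Matrix.toLin'_apply', Matrix.toLin'_toMatrix']
    unfold Matrix.rank
    rw [h1, LinearMap.finrank_range_of_inj hL]
    simp
  obtain ⟨I, hI⟩ := Minor_matrix A hrank
  refine ⟨I, ?_⟩
  rw [← LinearMap.det_toMatrix']
  have h2 : LinearMap.toMatrix' (((prI I).comp L : Cn n →L[ℂ] Cn n) : Cn n →ₗ[ℂ] Cn n) =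
      A.submatrix I id := by
    ext i j
    rw [LinearMap.toMatrix'_apply, Matrix.submatrix_apply, hA, LinearMap.toMatrix'_apply]
    rfl
  rw [h2]
  exact hI

end Pool.Agent.Lib.MP_55bc5f_an
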