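import Pool.Agent.Lib.MP_55bc5f_an.Full.SpecMfd
import Pool.Agent.Lib.MP_55bc5f_an.Negative
import Pool.Agent.Lib.MP_55bc5f_an.Deform

/-!
# The fibres `X_t`, `t ≠ 0`, do not have the meromorphic extension property
-/

set_option autoImplicit false

open scoped Manifold ContDiff Topology ComplexConjugate
open Set Filter Metric MeasureTheory

namespace Pool.Agent.Lib.MP_55bc5f_an

private lemma Neg_fd (e : (ℂ × ℂ) ≃L[ℂ] (Fin 2 → ℂ)) (x : ℂ × ℂ) :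
    mfderiv 𝓘(ℂ, ℂ × ℂ) 𝓘(ℂ, Fin 2 → ℂ) (fun z : ℂ × ℂ => e z) x =
      (e : (ℂ × ℂ) →L[ℂ] (Fin 2 → ℂ)) := by
  rw [mfderiv_eq_fderiv]
  exact e.fderiv

private lemma Neg_stein : IsStein (selfMan (ℂ × ℂ)) := by
  let e : (ℂ × ℂ) ≃L[ℂ] (Fin 2 → ℂ) := (ContinuousLinearEquiv.finTwoArrow ℂ ℂ).symm
  refine ⟨2, fun z : ℂ × ℂ => e z, ?_, ?_, ?_⟩
  · intro x
    exact e.differentiableAt.mdifferentiableAt
  · intro x
    have h1 := Neg_fd e x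
    intro a b hab
    have h2 : e (a : ℂ × ℂ) = e (b : ℂ × ℂ) := by
      have h3 := congrArg (fun L : (ℂ × ℂ) →L[ℂ] (Fin 2 → ℂ) => L a) h1
      have h4 := congrArg (fun L : (ℂ × ℂ) →L[ℂ] (Fin 2 → ℂ) => L b) h1
      exact h3.symm.trans (hab.trans h4)
    exact e.injective h2
  · exact e.toHomeomorph.isClosedEmbedding

private lemma Neg_comp {t : ℂ} (f : ℂ × ℂ → ℂ) (x : Dt t) :
    MDifferentiableAt 𝓘(ℂ, ℂ × ℂ) 𝓘(ℂ, ℂ) f (x : ℂ × ℂ) ↔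
      MDifferentiableAt 𝓘(ℂ, ℂ × ℂ) 𝓘(ℂ, ℂ) (f ∘ (Subtype.val : Dt t → ℂ × ℂ)) x :=
  differentiableWithinAt_localInvariantProp.liftPropAt_iff_comp_subtype_val f x

private lemma Neg_extend {t : ℂ} (ht : t ≠ 0) (h : Dt t → ℂ)
    (hh : MDifferentiable 𝓘(ℂ, ℂ × ℂ) 𝓘(ℂ, ℂ) h) :
    ∃ H : ℂ × ℂ → ℂ, Differentiable ℂ H ∧ ∀ x : Dt t, H x = h x := by
  classical
  let h' : ℂ × ℂ → ℂ := fun z => if hz : z ∈ Dt t then h ⟨z, hz⟩ else 0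
  have h1 : h' ∘ (Subtype.val : Dt t → ℂ × ℂ) = h := by
    funext x
    exact dif_pos x.2
  have h2 : DifferentiableOn ℂ h' (Dt t) := by
    intro z hz
    have h3 : MDifferentiableAt 𝓘(ℂ, ℂ × ℂ) 𝓘(ℂ, ℂ) h' z := by
      apply (Neg_comp h' ⟨z, hz⟩).2
      rw [h1]
      exact hh _
    exact h3.differentiableAt.differentiableWithinAt
  obtain ⟨H, hH, hHe⟩ := extend_Dt ht h2
  refine ⟨H, hH, fun x => ?_⟩
  rw [hHe _ x.2]
  exact congrFun h1 x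

private lemma Neg_lift (t : ℂ) : ContMDiff 𝓘(ℂ, ℂ × ℂ) 𝓘(ℂ, ℂ × ℂ × ℂ) ω (liftneg t) := by
  intro x
  rw [← contMDiffAt_subtypeVal_comp_iff]
  have h1 : (Subtype.val ∘ liftneg t) =
      (fun z : ℂ × ℂ => ((z.1, 0, z.2) : ℂ × ℂ × ℂ)) ∘ (Subtype.val : Dt t → ℂ × ℂ) := rfl
  rw [h1]
  have h2 : ContDiff ℂ ω (fun z : ℂ × ℂ => ((z.1, 0, z.2) : ℂ × ℂ × ℂ)) := by fun_prop
  exact (h2.contMDiff.comp contMDiff_subtype_val) x

private lemma Neg_gneg (t : ℂ) : MDifferentiable 𝓘(ℂ, ℂ × ℂ) 𝓘(ℂ, ℂ × ℂ × ℂ)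
    (fun z : Dt t => (Quot.P (Om t) Gam (liftneg t z) : Quot.Q (Om t) Gam)) := by
  have h1 := (Quot.contMDiff_P (Om_contMDiff t)).comp (Neg_lift t)
  exact h1.mdifferentiable (by simp)

theorem s_Neg (hMeroGraph : S_MeroGraph) (hMerId : S_MerId) : S_Neg := by
  intro t ht hMEP
  have hconn : IsConnected ((Dt t : Set (ℂ × ℂ))) :=
    isConnected_iff_connectedSpace.2 (inferInstance : ConnectedSpace (Dt t))
  have henv : IsEnvelopeM ((selfMan (ℂ × ℂ)).sub (Dt t)) (selfMan (ℂ × ℂ))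
      (Subtype.val : Dt t → ℂ × ℂ) := by
    refine ⟨Neg_stein, ?_, ?_, ?_, ?_, ?_⟩
    · exact (isRiemannDomain_id (V := ℂ × ℂ)).connected
    · exact (Dt t).isOpen.isOpenEmbedding_subtypeVal
    · intro x
      exact (hasMFDerivAt_val (Dt t) x).mdifferentiableAt
    · intro x
      have h1 := mfderiv_val (Dt t) x
      intro a b hab
      have h3 := congrArg (fun L : (ℂ × ℂ) →L[ℂ] (ℂ × ℂ) => L a) h1
      have h4 := congrArg (fun L : (ℂ × ℂ) →L[ℂ] (ℂ × ℂ) => L b) h1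
      exact h3.symm.trans (hab.trans h4)
    · intro h hh
      obtain ⟨H, hH, hHe⟩ := Neg_extend ht h hh
      exact ⟨H, fun x => (hH x).mdifferentiableAt, hHe⟩
  have hG := hMeroGraph (ℂ × ℂ) (ℂ × ℂ × ℂ) ((selfMan (ℂ × ℂ)).sub (Dt t)) (XX t) (gneg t)
    (Neg_gneg t)
  obtain ⟨G', hG', hext⟩ := hMEP (ℂ × ℂ) (selfMan (ℂ × ℂ)) (Dt t) (selfMan (ℂ × ℂ))
    (Subtype.val : Dt t → ℂ × ℂ) Neg_stein hconn henv _ hG
  exact no_ext ht G' (hMerId (ℂ × ℂ) (ℂ × ℂ × ℂ) (XX t) G' hG') fun x y => hext x y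

end Pool.Agent.Lib.MP_55bc5f_an
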