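import Pool.Agent.Lib.MP_55bc5f_an.Full.SpecMfd

/-!
# `X_0` has the meromorphic extension property
-/

set_option autoImplicit false

open scoped Manifold ContDiff Topology ComplexConjugate
open Set Filter Metric MeasureTheory

namespace Pool.Agent.Lib.MP_55bc5f_an

theorem mep_zero (hMfdPos : S_MfdPos) (hMeroHol : S_MeroHol) (hMeroGraph : S_MeroGraph) :
    MEP (XX 0) := by
  intro V _ _ _ S D R j _ hD hR G hG
  obtain ⟨f, hf, rfl⟩ := hMeroHol V (S.sub D) G hG
  have hDc : ConnectedSpace (S.sub D) := isConnected_iff_connectedSpace.1 hD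
  obtain ⟨f', hf', hff'⟩ := hMfdPos V (S.sub D) R j hDc hR f hf
  refine ⟨{w | w.2 = f' w.1}, hMeroGraph V (ℂ × ℂ × ℂ) R (XX 0) f' hf', ?_⟩
  intro x y
  change y = f' (j x) ↔ y = f x
  rw [hff']

end Pool.Agent.Lib.MP_55bc5f_an
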