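import Pool.Agent.Lib.MP_55bc5f_an.Full.SpecMfd

/-!
# Local holomorphic left inverses of immersions
-/

set_option autoImplicit false

open scoped Manifold ContDiff Topology ComplexConjugate
open Set Filter Metric MeasureTheory

namespace Pool.Agent.Lib.MP_55bc5f_an

theorem s_Retr : S_Retr := by
  intro V _ _ _ M N ι hι x
  obtain ⟨hd, hinj⟩ := hι
  have hcV : CompleteSpace V := FiniteDimensional.complete ℂ V
  obtain ⟨φ, hφ⟩ : ∃ φ : OpenPartialHomeomorph M V, φ = chartAt V x := ⟨_, rfl⟩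
  have hxs : x ∈ φ.source := by rw [hφ]; exact mem_chart_source V x
  have hxt : φ x ∈ φ.target := φ.map_source hxs
  have hφM : φ.MDifferentiable 𝓘(ℂ, V) 𝓘(ℂ, V) := by
    rw [hφ]
    exact mdifferentiable_chart x
  have hsymm : ∀ w ∈ φ.target, MDifferentiableAt 𝓘(ℂ, V) 𝓘(ℂ, V) φ.symm w := fun w hw =>
    hφM.mdifferentiableAt_symm hw
  obtain ⟨Z, hZ⟩ : ∃ Z : V → Cn N, Z = fun w => ι (φ.symm w) := ⟨_, rfl⟩
  have hZm : ∀ w ∈ φ.target, MDifferentiableAt 𝓘(ℂ, V) 𝓘(ℂ, Cn N) Z w := by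
    intro w hw
    rw [hZ]
    exact (hd (φ.symm w)).comp w (hsymm w hw)
  have hZd : DifferentiableOn ℂ Z φ.target := fun w hw =>
    ((hZm w hw).differentiableAt).differentiableWithinAt
  have hZx : Z (φ x) = ι x := by
    rw [hZ]
    simp only [φ.left_inv hxs]
  -- the derivative is injective
  have hD : Function.Injective (fderiv ℂ Z (φ x)) := by
    have h1 : mfderiv 𝓘(ℂ, V) 𝓘(ℂ, Cn N) (ι ∘ φ.symm) (φ x) =
        (mfderiv 𝓘(ℂ, V) 𝓘(ℂ, Cn N) ι (φ.symm (φ x))).comp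
          (mfderiv 𝓘(ℂ, V) 𝓘(ℂ, V) φ.symm (φ x)) :=
      mfderiv_comp (φ x) (hd _) (hsymm _ hxt)
    have h2 : fderiv ℂ Z (φ x) = mfderiv 𝓘(ℂ, V) 𝓘(ℂ, Cn N) (ι ∘ φ.symm) (φ x) := by
      rw [mfderiv_eq_fderiv, hZ]
      rfl
    have h3 := hφM.comp_symm_deriv hxt
    have h4 : Function.Injective (mfderiv 𝓘(ℂ, V) 𝓘(ℂ, V) φ.symm (φ x)) := by
      intro u v huv
      have h5 := congrArg (fun L => L u) h3
      have h6 := congrArg (fun L => L v) h3
      simp only [ContinuousLinearMap.comp_apply] at h5 h6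
      rw [huv] at h5
      exact h5.symm.trans h6
    rw [h2, h1]
    intro u v huv
    exact h4 (hinj _ huv)
  obtain ⟨T₀, hT₀⟩ := LinearMap.exists_leftInverse_of_injective
    ((fderiv ℂ Z (φ x) : V →L[ℂ] Cn N) : V →ₗ[ℂ] Cn N) (LinearMap.ker_eq_bot.2 hD)
  obtain ⟨T, hT⟩ : ∃ T : Cn N →L[ℂ] V, T = LinearMap.toContinuousLinearMap T₀ := ⟨_, rfl⟩
  have hTD : T.comp (fderiv ℂ Z (φ x)) = ContinuousLinearMap.id ℂ V := by
    ext v
    rw [hT]
    exact congrArg (fun L : V →ₗ[ℂ] V => L v) hT₀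
  obtain ⟨f, hf⟩ : ∃ f : V → V, f = fun w => T (Z w) := ⟨_, rfl⟩
  have hZA : AnalyticAt ℂ Z (φ x) := Osgood.analyticOnNhd φ.open_target hZd _ hxt
  have hfA : AnalyticAt ℂ f (φ x) := by
    rw [hf]
    exact (T.analyticAt _).comp hZA
  have hZ' : HasFDerivAt Z (fderiv ℂ Z (φ x)) (φ x) := hZA.differentiableAt.hasFDerivAt
  have hf' : HasFDerivAt f ((ContinuousLinearEquiv.refl ℂ V : V ≃L[ℂ] V) : V →L[ℂ] V) (φ x) := by
    have h1 : HasFDerivAt f (T.comp (fderiv ℂ Z (φ x))) (φ x) := by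
      rw [hf]
      exact T.hasFDerivAt.comp _ hZ'
    rw [hTD] at h1
    exact h1
  have hcd : ContDiffAt ℂ ω f (φ x) := hfA.contDiffAt
  obtain ⟨g, hg⟩ : ∃ g : OpenPartialHomeomorph V V,
      g = hcd.toOpenPartialHomeomorph f hf' (by simp) := ⟨_, rfl⟩
  have hgf : ∀ w, g w = f w := fun w => by
    rw [hg]
    exact congrFun (hcd.toOpenPartialHomeomorph_coe (f := f) hf' (by simp)) w
  have hgx : φ x ∈ g.source := by
    rw [hg]
    exact hcd.mem_toOpenPartialHomeomorph_source hf' (by simp)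
  have hinv : ContDiffAt ℂ ω g.symm (f (φ x)) := by
    rw [hg]
    exact hcd.to_localInverse hf' (by simp)
  have hinv' : ∀ᶠ w in 𝓝 (f (φ x)), DifferentiableAt ℂ g.symm w := by
    have h1 : ContDiffAt ℂ 1 g.symm (f (φ x)) := hinv.of_le (by simp)
    have h2 := h1.eventually (by simp)
    filter_upwards [h2] with w hw
    exact hw.differentiableAt (by simp)
  have hgi : g.symm (f (φ x)) = φ x := by
    rw [← hgf, g.left_inv hgx]
  have hTx : T (ι x) = f (φ x) := by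
    rw [hf]
    simp only [hZx]
  have hTc : Tendsto T (𝓝 (ι x)) (𝓝 (f (φ x))) := by
    rw [← hTx]
    exact T.continuous.continuousAt
  refine ⟨fun w => φ.symm (g.symm (T w)), ?_, ?_, ?_⟩
  · have h1 : ∀ᶠ w in 𝓝 (f (φ x)), g.symm w ∈ φ.target := by
      have h2 : ContinuousAt g.symm (f (φ x)) := hinv.continuousAt
      apply h2.eventually
      rw [hgi]
      exact φ.open_target.mem_nhds hxt
    filter_upwards [hTc.eventually h1, hTc.eventually hinv'] with w hw1 hw2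
    have h3 : MDifferentiableAt 𝓘(ℂ, Cn N) 𝓘(ℂ, V) (fun w => g.symm (T w)) w :=
      (DifferentiableAt.comp w hw2 T.differentiableAt).mdifferentiableAt
    exact MDifferentiableAt.comp w (hsymm _ hw1) h3
  · show φ.symm (g.symm (T (ι x))) = x
    rw [hTx, hgi, φ.left_inv hxs]
  · have h1 : ∀ᶠ y in 𝓝 x, φ y ∈ g.source :=
      (φ.continuousAt hxs).eventually (g.open_source.mem_nhds hgx)
    filter_upwards [φ.open_source.mem_nhds hxs, h1] with y hy1 hy2
    have h2 : T (ι y) = g (φ y) := by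
      rw [hgf, hf, hZ]
      simp only [φ.left_inv hy1]
    rw [h2, g.left_inv hy2, φ.left_inv hy1]

end Pool.Agent.Lib.MP_55bc5f_an
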