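import Pool.Agent.Lib.MP_55bc5f_an.Full.SpecMfd

/-!
# Holomorphic functions through an immersion in complex `N`-space
-/

set_option autoImplicit false

open scoped Manifold ContDiff Topology ComplexConjugate
open Set Filter Metric MeasureTheory

namespace Pool.Agent.Lib.MP_55bc5f_an

theorem s_TrHol (hRetr : S_Retr) : S_TrHol := by
  intro V _ _ _ M N ι hι W _ _ F x
  have hc : ContinuousAt ι x := (hι.1 x).continuousAt
  constructor
  · rintro ⟨g, hg1, hg2⟩
    filter_upwards [hc.eventually hg1, hg2.eventually_nhds] with y h1 h2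
    have h3 : MDifferentiableAt 𝓘(ℂ, Cn N) 𝓘(ℂ, W) g (ι y) := h1.mdifferentiableAt
    have h4 : MDifferentiableAt 𝓘(ℂ, V) 𝓘(ℂ, W) (g ∘ ι) y := h3.comp y (hι.1 y)
    exact h4.congr_of_eventuallyEq h2
  · intro h
    obtain ⟨ρ, h1, h2, h3⟩ := hRetr V M N ι hι x
    have hρ : ContinuousAt ρ (ι x) := h1.self_of_nhds.continuousAt
    have h' : ∀ᶠ y in 𝓝 (ρ (ι x)), MDifferentiableAt 𝓘(ℂ, V) 𝓘(ℂ, W) F y := by
      rw [h2]; exact h
    refine ⟨F ∘ ρ, ?_, ?_⟩
    · filter_upwards [h1, hρ.eventually h'] with w hw1 hw2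
      exact mdifferentiableAt_iff_differentiableAt.1 (hw2.comp w hw1)
    · filter_upwards [h3] with y hy
      simp only [Function.comp_apply]
      rw [hy]

end Pool.Agent.Lib.MP_55bc5f_an
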