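import Pool.Agent.Lib.MP_55bc5f_an.Full.SpecMfd

/-!
# Immersed manifolds have local coordinates among the components of the immersion
-/

set_option autoImplicit false

open scoped Manifold ContDiff Topology ComplexConjugate
open Set Filter Metric MeasureTheory

namespace Pool.Agent.Lib.MP_55bc5f_an

/-- The immersion in a chart is differentiable with injective derivative. -/
lemma TrLM_chart {V : Type} [NormedAddCommGroup V] [NormedSpace ℂ V] (M : CMan V) {N : ℕ}
    (ι : M → Cn N) (h : Imm M ι) (x : M) {v : V} (hv : v ∈ (chartAt V x).target) :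
    DifferentiableAt ℂ (fun v => ι ((chartAt V x).symm v)) v ∧
      Function.Injective (fderiv ℂ (fun v => ι ((chartAt V x).symm v)) v) := by
  have hφ : (chartAt V x).MDifferentiable 𝓘(ℂ, V) 𝓘(ℂ, V) :=
    mdifferentiable_chart (I := 𝓘(ℂ, V)) x
  have h1 : MDifferentiableAt 𝓘(ℂ, V) 𝓘(ℂ, V) (chartAt V x).symm v :=
    hφ.mdifferentiableAt_symm hv
  have h2 : MDifferentiableAt 𝓘(ℂ, V) 𝓘(ℂ, Cn N) ι ((chartAt V x).symm v) := h.1 _
  have h3 : MDifferentiableAt 𝓘(ℂ, V) 𝓘(ℂ, Cn N) (ι ∘ (chartAt V x).symm) v :=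
    MDifferentiableAt.comp v h2 h1
  have h4 : mfderiv 𝓘(ℂ, V) 𝓘(ℂ, Cn N) (ι ∘ (chartAt V x).symm) v =
      (mfderiv 𝓘(ℂ, V) 𝓘(ℂ, Cn N) ι ((chartAt V x).symm v)).comp
        (mfderiv 𝓘(ℂ, V) 𝓘(ℂ, V) (chartAt V x).symm v) := mfderiv_comp v h2 h1
  refine ⟨mdifferentiableAt_iff_differentiableAt.1 h3, ?_⟩
  have h5 : fderiv ℂ (fun v => ι ((chartAt V x).symm v)) v =
      mfderiv 𝓘(ℂ, V) 𝓘(ℂ, Cn N) (ι ∘ (chartAt V x).symm) v := mfderiv_eq_fderiv.symm
  have h6 : Function.Injective (mfderiv 𝓘(ℂ, V) 𝓘(ℂ, V) (chartAt V x).symm v) := by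
    have h7 := hφ.comp_symm_deriv hv
    intro a b hab
    have h8 : ∀ c, (mfderiv 𝓘(ℂ, V) 𝓘(ℂ, V) (chartAt V x) ((chartAt V x).symm v))
        (mfderiv 𝓘(ℂ, V) 𝓘(ℂ, V) (chartAt V x).symm v c) = c := fun c =>
      DFunLike.congr_fun h7 c
    rw [← h8 a, ← h8 b, hab]
  intro a b hab
  rw [h5, h4] at hab
  exact h6 (h.2 _ hab)

theorem s_TrLM (hMinor : S_Minor) : S_TrLM := by
  intro V _ _ _ M N ι h x
  have hT : Module.finrank ℂ V = Module.finrank ℂ (Cn (Module.finrank ℂ V)) := by simp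
  let T : V ≃L[ℂ] Cn (Module.finrank ℂ V) := ContinuousLinearEquiv.ofFinrankEq hT
  let e : OpenPartialHomeomorph M (Cn (Module.finrank ℂ V)) :=
    (chartAt V x).transHomeomorph T.toHomeomorph
  have hx : x ∈ e.source := mem_chart_source V x
  have hex : e x = T (chartAt V x x) := rfl
  have hsymm : ∀ w, e.symm w = (chartAt V x).symm (T.symm w) := fun w => rfl
  have htar : ∀ w ∈ e.target, T.symm w ∈ (chartAt V x).target := fun w hw => hw
  have key : ∀ w ∈ e.target, HasFDerivAt (fun w => ι (e.symm w))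
      ((fderiv ℂ (fun v => ι ((chartAt V x).symm v)) (T.symm w)).comp
        (T.symm : Cn (Module.finrank ℂ V) →L[ℂ] V)) w := by
    intro w hw
    have h1 := (TrLM_chart M ι h x (htar w hw)).1.hasFDerivAt
    exact h1.comp w (T.symm : Cn (Module.finrank ℂ V) →L[ℂ] V).hasFDerivAt
  have hinj : Function.Injective (fderiv ℂ (fun w => ι (e.symm w)) (e x)) := by
    rw [(key (e x) (e.map_source hx)).fderiv]
    intro a b hab
    exact T.symm.injective ((TrLM_chart M ι h x (htar _ (e.map_source hx))).2 hab)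
  obtain ⟨I, hI⟩ := hMinor _ N _ hinj
  exact ⟨I, et_mk hx (fun w hw => (key w hw).differentiableAt.differentiableWithinAt) hI⟩

end Pool.Agent.Lib.MP_55bc5f_an
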