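import Pool.Agent.Lib.MP_55bc5f_an.Full.SpecMfd

/-!
# Holomorphic maps on an immersed manifold are locally restrictions
-/

set_option autoImplicit false

open scoped Manifold ContDiff Topology ComplexConjugate
open Set Filter Metric MeasureTheory

namespace Pool.Agent.Lib.MP_55bc5f_an

theorem s_TrMap (hRetr : S_Retr) : S_TrMap := by
  intro V _ _ _ M N ι hι E _ _ Y F x
  constructor
  · rintro ⟨g, hg, hF⟩
    have hcont : ContinuousAt ι x := hι.1.continuous.continuousAt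
    have h1 : ∀ᶠ y in 𝓝 x, MDifferentiableAt 𝓘(ℂ, Cn N) 𝓘(ℂ, E) g (ι y) := hcont.eventually hg
    have h2 : ∀ᶠ y in 𝓝 x, ∀ᶠ z in 𝓝 y, F z = (g ∘ ι) z := eventually_eventually_nhds.2 hF
    filter_upwards [h1, h2] with y hy1 hy2
    have h3 : MDifferentiableAt 𝓘(ℂ, V) 𝓘(ℂ, E) (g ∘ ι) y := hy1.comp y (hι.1 y)
    exact h3.congr_of_eventuallyEq hy2
  · intro h
    obtain ⟨ρ, hρ1, hρ2, hρ3⟩ := hRetr V M N ι hι x
    have hcont : ContinuousAt ρ (ι x) := hρ1.self_of_nhds.continuousAt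
    refine ⟨F ∘ ρ, ?_, ?_⟩
    · have h1 : ∀ᶠ w in 𝓝 (ι x), MDifferentiableAt 𝓘(ℂ, V) 𝓘(ℂ, E) F (ρ w) := by
        refine hcont.eventually ?_
        rw [hρ2]
        exact h
      filter_upwards [hρ1, h1] with w hw1 hw2
      exact hw2.comp w hw1
    · filter_upwards [hρ3] with y hy
      change F y = F (ρ (ι y))
      rw [hy]

end Pool.Agent.Lib.MP_55bc5f_an
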